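import Pool.Agent.helper62.DP8.Spec

/-!
# Project sq8: module GP2 (two different paths between the same ends contain a short cycle)
-/

set_option autoImplicit false

namespace Pool.Agent.helper62.DP8

/-- The graph of the edges of `p` and `q`. -/
def GP2_gr {V : Type} {G : SimpleGraph V} {x y : V} (p q : G.Walk x y) : SimpleGraph V :=
  SimpleGraph.fromEdgeSet {e | e ∈ p.edges ∨ e ∈ q.edges}

theorem GP2_mem {V : Type} {G : SimpleGraph V} {x y : V} (p q : G.Walk x y) (e : Sym2 V) :
    e ∈ (GP2_gr p q).edgeSet ↔ e ∈ p.edges ∨ e ∈ q.edges := by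
  unfold GP2_gr
  rw [SimpleGraph.edgeSet_fromEdgeSet]
  constructor
  · intro h
    exact h.1
  · intro h
    refine ⟨h, ?_⟩
    intro hd
    rcases h with h | h
    · exact G.not_isDiag_of_mem_edgeSet (p.edges_subset_edgeSet h) hd
    · exact G.not_isDiag_of_mem_edgeSet (q.edges_subset_edgeSet h) hd

theorem GP2_le {V : Type} {G : SimpleGraph V} {x y : V} (p q : G.Walk x y) : GP2_gr p q ≤ G := by
  rw [← SimpleGraph.edgeSet_subset_edgeSet]
  intro e he
  rcases (GP2_mem p q e).1 he with h | h
  · exact p.edges_subset_edgeSet h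
  · exact q.edges_subset_edgeSet h

theorem GP2 : GP2_stmt := by
  intro V G g hG x y p q hp hq hpq
  by_contra hlt
  rw [not_le] at hlt
  have hac : (GP2_gr p q).IsAcyclic := by
    intro v c hc
    have h1 := hG v (c.mapLe (GP2_le p q)) (hc.mapLe (GP2_le p q))
    have h2 : (c.mapLe (GP2_le p q)).length = c.length := by
      simp [SimpleGraph.Walk.mapLe]
    rw [h2] at h1
    have h3 : c.edges ⊆ p.edges ++ q.edges := by
      intro e he
      rw [List.mem_append]
      exact (GP2_mem p q e).1 (c.edges_subset_edgeSet he)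
    have h4 : c.edges.length ≤ (p.edges ++ q.edges).length :=
      (List.subperm_of_subset hc.edges_nodup h3).length_le
    rw [List.length_append, SimpleGraph.Walk.length_edges, SimpleGraph.Walk.length_edges,
      SimpleGraph.Walk.length_edges] at h4
    omega
  have hp' : ∀ e ∈ p.edges, e ∈ (GP2_gr p q).edgeSet := fun e he => (GP2_mem p q e).2 (Or.inl he)
  have hq' : ∀ e ∈ q.edges, e ∈ (GP2_gr p q).edgeSet := fun e he => (GP2_mem p q e).2 (Or.inr he)
  have hu := (hac.subsingleton_path x y).allEq ⟨p.transfer _ hp', hp.transfer hp'⟩ ⟨q.transfer _ hq', hq.transfer hq'⟩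
  have hu' : p.transfer _ hp' = q.transfer _ hq' := congrArg Subtype.val hu
  apply hpq
  have e1 : (p.transfer _ hp').support = p.support := SimpleGraph.Walk.support_transfer _ _
  have e2 : (q.transfer _ hq').support = q.support := SimpleGraph.Walk.support_transfer _ _
  apply SimpleGraph.Walk.ext_support
  rw [← e1, ← e2, hu']

end Pool.Agent.helper62.DP8
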